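import Pool.Agent.Helper60.MA.GDefs
import Pool.Agent.Helper88.MA.EXT
import Pool.Agent.Helper40.MA.MAT

/-!
# MP_a38aea_lc, block RG: the filter is generic in the sense of `Gen`
-/

set_option linter.unusedSectionVars false
set_option linter.unusedVariables false

namespace Pool.Agent.Helper60.MA

open Pool.Agent.Helper96.Fc Cardinal Ordinal

namespace RG

/-! ### Density -/

section

variable {Ω L : Type} [LinearOrder Ω] [LinearOrder L] [WellFoundedLT Ω] {S : Sys Ω L}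

theorem side_ne {x : Ent Ω} {ν : Ω} (h : ν ∈ x.side) : x ≠ 0 := by
  rintro rfl
  simp at h

/-- density for the clause `name` -/
theorem dense_name {e ν : Ω} (hν : S.Nme e ν) (k : ℕ) {p : Cd Ω} (hp : S.Cond p) :
    ∃ q, S.Cond q ∧ S.Le q p ∧ ∃ n, S.Le q (S.dec ν k n).1 := by
  obtain ⟨n, r, h1, h2, h3⟩ := hν.pre k (Sys.cut e p) (hp.cut e)
  obtain ⟨h4, h5, h6⟩ := Sys.mix_le' h1 hp (Sys.LeB_cut_right.1 (h2.leB e))
  exact ⟨_, h4, h5, n, h6.trans h3⟩

/-- a larger side condition -/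
theorem dense_side {e ν : Ω} {p : Cd Ω} (hp : S.Cond p)
    (h1 : S.cat e = true → S.Val e ∧ S.Nme e ν)
    (h2 : S.cat e = false → ν < e ∧ S.lab e ≤ S.lab ν ∧ S.Val ν) :
    ∃ q, S.Cond q ∧ S.Le q p ∧ ν ∈ (q e).side := by
  classical
  have hx : S.EntOk e ⟨(p e).stem, insert ν (p e).side⟩ := by
    constructor
    · intro hc
      refine ⟨(h1 hc).1, fun ν' hν' => ?_⟩
      rcases Finset.mem_insert.1 hν' with rfl | h
      · exact (h1 hc).2
      · exact ((hp.2 e (side_ne h)).1 hc).2 ν' h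
    · intro hc γ hγ
      rcases Finset.mem_insert.1 hγ with rfl | h
      · exact h2 hc
      · exact (hp.2 e (side_ne h)).2 hc γ h
  obtain ⟨h4, h5, -⟩ := Sys.mix_le (hp.cut e) hp (Sys.LeB_cut_left.2 (Sys.LeB.refl e p)) hx
    (Sys.Loc.of_side rfl (Finset.subset_insert _ _))
  refine ⟨_, h4, h5, ?_⟩
  rw [Sys.mix_self]
  exact Finset.mem_insert_self _ _

/-- density for the clause `len`, at a coordinate that is not a catcher -/
theorem dense_len_false {e : Ω} {p : Cd Ω} (hp : S.Cond p) (he : S.cat e = false) (m : ℕ) :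
    ∃ q, S.Cond q ∧ S.Le q p ∧ m ≤ (q e).word.length := by
  have hx : S.EntOk e ⟨(p e).stem ++ [List.replicate m (false, false)], (p e).side⟩ := by
    constructor
    · intro hc
      rw [he] at hc
      exact absurd hc (by decide)
    · intro hc γ h
      exact (hp.2 e (side_ne h)).2 hc γ h
  have hl : S.Loc e (Sys.cut e p) (S.LeB e (Sys.cut e p))
      ⟨(p e).stem ++ [List.replicate m (false, false)], (p e).side⟩ (p e) := by
    refine ⟨Finset.Subset.refl _, [List.replicate m (false, false)], rfl, fun a β c h => ?_⟩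
    have hβ : β = List.replicate m (false, false) := by
      have h1 : β ∈ [List.replicate m ((false, false) : Sym)] := by
        rw [h]
        simp
      simpa using h1
    simp only [he]
    intro k t hk
    rw [hβ, List.getElem?_replicate] at hk
    split_ifs at hk
    simp at hk
  obtain ⟨h4, h5, -⟩ := Sys.mix_le (hp.cut e) hp (Sys.LeB_cut_left.2 (Sys.LeB.refl e p)) hx hl
  refine ⟨_, h4, h5, ?_⟩
  rw [Sys.mix_self, Ent.word, List.flatten_append, List.length_append]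
  simp

/-- density for the clause `len`, at a valid catcher -/
theorem dense_len_true {e e' : Ω} {p : Cd Ω} (hp : S.CondB e' p) (hee : e < e') (hv : S.Val e)
    (m : ℕ) : ∃ q, S.Cond q ∧ S.Le q p ∧ m ≤ (q e).word.length := by
  obtain ⟨q, h1, h2, h3, -⟩ := Sys.extend_one hp hee hv m
  exact ⟨q, h1.cond, h2, h3⟩

end

/-! ### The requirements -/

variable {S : Sys Om La}

theorem cN_inj {e e' : Om} (h : cN S e = cN S e') : e = e' := by
  have h1 := ordN_inj' h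
  exact (EquivLike.apply_eq_iff_eq ToType.mk.symm).mp (Subtype.ext h1)

theorem cN_inj' {e e' : Om} (h : (Sum.inl (cN S e) : Obj (Pos S)) = Sum.inl (cN S e')) :
    e = e' := cN_inj (Sum.inl.inj h)

/-- the matching clause -/
def Mt (S : Sys Om La) (α J h : Om) (m : ℕ) (q : Cd Om) : Prop :=
  ∃ u v, m ≤ u ∧ u < v ∧
      v ≤ (q α).word.length ∧ S.Says (S.Le q) J u true ∧ S.Says (S.Le q) J v true ∧
      ∀ k, u ≤ k → k < v → ∃ i t, (q α).word[k]? = some (i, t) ∧ S.Says (S.Le q) h k i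

/-- the dense sets -/
def RR (S : Sys Om La) : ℕ × ℕ → Pos S → List (Obj (Pos S)) → Prop
  | (0, k), p, l => ∃ y ν, l = [y, Sum.inl (cN S ν)] ∧ ∃ n, S.Le p.1 (S.dec ν k n).1
  | (1, _), p, l => ∃ y e ν, l = [y, Sum.inl (cN S e), Sum.inl (cN S ν)] ∧ ν ∈ (p.1 e).side
  | (2, m), p, l => ∃ y e, l = [y, Sum.inl (cN S e)] ∧ m ≤ (p.1 e).word.length
  | (3, m), p, l => ∃ y α J h, l = [y, Sum.inl (cN S α), Sum.inl (cN S J), Sum.inl (cN S h)] ∧
      Mt S α J h m p.1
  | _, _, _ => False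

/-- the requirement -/
noncomputable def rq (S : Sys Om La) : Req (Pos S) where
  K := ℕ × ℕ
  cK := inferInstance
  R := RR S
  O := fun _ _ _ => False
  hO := fun _ _ _ _ h => h.elim

/-- the generic filter meets a dense set -/
theorem meet {X : Set (Obj (Pos S))} {G : Set (Pos S)} (hs : (rq S).Sat X G) (k : ℕ × ℕ)
    (l : List (Obj (Pos S))) (hl : ∀ a ∈ l, a ∈ X)
    (hd : ∀ p : Cd Om, S.Cond p → ∃ q, ∃ hq : S.Cond q, S.Le q p ∧ ∃ y, RR S k ⟨q, hq⟩ (y :: l)) :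
    ∃ p ∈ G, ∃ y, RR S k p (y :: l) := by
  obtain ⟨p, hp, ⟨y, -, h⟩ | h⟩ := hs.gen k l hl
  · exact ⟨p, hp, y, h⟩
  · obtain ⟨q, hq, h1, y, h2⟩ := hd p.1 p.2
    exact (h ⟨q, hq⟩ h1 y h2).elim

theorem exists_above (e : Om) {p : Cd Om} (hp : S.Cond p) : ∃ e', S.CondB e' p ∧ e < e' := by
  obtain ⟨e', h⟩ := bddOm (Z := {d : Om // p d ≠ 0} ⊕ Unit) (by
      have : Finite {d : Om // p d ≠ 0} := p.hasFiniteSupport.to_subtype
      exact (mk_le_aleph0 (α := {d : Om // p d ≠ 0} ⊕ Unit)).trans (aleph0_lt_aleph_one.le))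
    (fun z => Sum.elim (fun d => d.1) (fun _ => e) z)
  exact ⟨e', Sys.CondB_iff'.2 ⟨hp, fun d hd => h (Sum.inl ⟨d, hd⟩)⟩, h (Sum.inr ())⟩

end RG

open RG in
/-- block RG: the filter is generic in the sense of `Gen` -/
theorem req_gen (S : Sys Om La) : ∃ r : Req (Pos S), ∀ X G, Basic X G → Clos X →
    r.Sat X G → Gen S (EX S X) (raw G) := by
  refine ⟨rq S, fun X G hb hc hs => ?_⟩
  have l1 : ∀ {a : Om}, a ∈ EX S X →
      ∀ b ∈ ([Sum.inl (cN S a)] : List (Obj (Pos S))), b ∈ X := by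
    intro a ha b hb
    rw [List.mem_singleton] at hb
    rw [hb]
    exact ha
  have lc : ∀ {a : Om} {l : List (Obj (Pos S))}, a ∈ EX S X → (∀ b ∈ l, b ∈ X) →
      ∀ b ∈ (Sum.inl (cN S a) : Obj (Pos S)) :: l, b ∈ X := by
    intro a l ha hl b hb
    rcases List.mem_cons.1 hb with rfl | hb
    · exact ha
    · exact hl b hb
  have hraw : ∀ p ∈ G, p.1 ∈ raw G := fun p hp => ⟨p.2, hp⟩
  have hcond : ∀ p ∈ raw G, S.Cond p := fun p hp => hp.1
  have hup : ∀ p ∈ raw G, ∀ q, S.Cond q → S.Le p q → q ∈ raw G := by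
    rintro p ⟨h, hp⟩ q hq hle
    exact ⟨hq, hb.filt.up _ hp ⟨q, hq⟩ hle⟩
  have hdir : ∀ p ∈ raw G, ∀ q ∈ raw G, ∃ r ∈ raw G, S.Le r p ∧ S.Le r q := by
    rintro p ⟨h, hp⟩ q ⟨h', hq⟩
    obtain ⟨r, hr, h1, h2⟩ := hb.filt.compat hp hq
    exact ⟨r.1, hraw r hr, h1, h2⟩
  refine ⟨hcond, hup, hdir, ?_, ?_, ?_, ?_, ?_⟩
  · intro e ν hν hn k
    obtain ⟨p, hp, y, y', ν', hl, n, hle⟩ := meet hs (0, k) [Sum.inl (cN S ν)] (l1 hν) (by
      intro p hp
      obtain ⟨q, h1, h2, n, h3⟩ := dense_name hn k hp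
      exact ⟨q, h1, h2, Sum.inr ⟨q, h1⟩, _, ν, rfl, n, h3⟩)
    simp only [List.cons.injEq, and_true] at hl
    obtain rfl := cN_inj' hl.2
    exact ⟨n, hup _ (hraw p hp) _ (hn.mem k n).cond hle⟩
  · intro e he hv ν hν hn
    obtain ⟨p, hp, y, y', e', ν', hl, h⟩ := meet hs (1, 0)
      [Sum.inl (cN S e), Sum.inl (cN S ν)] (lc he (l1 hν)) (by
      intro p hp
      obtain ⟨q, h1, h2, h3⟩ := dense_side (e := e) (ν := ν) hp (fun _ => ⟨hv, hn⟩)
        (fun h => by rw [hv.cat] at h; exact absurd h (by decide))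
      exact ⟨q, h1, h2, Sum.inr ⟨q, h1⟩, _, e, ν, rfl, h3⟩)
    simp only [List.cons.injEq, and_true] at hl
    obtain rfl := cN_inj' hl.2.1
    obtain rfl := cN_inj' hl.2.2
    exact ⟨p.1, hraw p hp, h⟩
  · intro e he hv m
    obtain ⟨p, hp, y, y', e', hl, h⟩ := meet hs (2, m) [Sum.inl (cN S e)] (l1 he) (by
      intro p hp
      cases hcat : S.cat e with
      | true =>
        obtain ⟨e', h1, h2⟩ := exists_above e hp
        obtain ⟨q, h3, h4, h5⟩ := dense_len_true h1 h2 (hv hcat) m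
        exact ⟨q, h3, h4, Sum.inr ⟨q, h3⟩, _, e, rfl, h5⟩
      | false =>
        obtain ⟨q, h3, h4, h5⟩ := dense_len_false hp hcat m
        exact ⟨q, h3, h4, Sum.inr ⟨q, h3⟩, _, e, rfl, h5⟩)
    simp only [List.cons.injEq, and_true] at hl
    obtain rfl := cN_inj' hl.2
    exact ⟨p.1, hraw p hp, h⟩
  · intro α hα hcat γ hγ hlt hv hlab
    obtain ⟨p, hp, y, y', e', ν', hl, h⟩ := meet hs (1, 0)
      [Sum.inl (cN S α), Sum.inl (cN S γ)] (lc hα (l1 hγ)) (by
      intro p hp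
      obtain ⟨q, h1, h2, h3⟩ := dense_side (e := α) (ν := γ) hp
        (fun h => by rw [hcat] at h; exact absurd h (by decide)) (fun _ => ⟨hlt, hlab, hv⟩)
      exact ⟨q, h1, h2, Sum.inr ⟨q, h1⟩, _, α, γ, rfl, h3⟩)
    simp only [List.cons.injEq, and_true] at hl
    obtain rfl := cN_inj' hl.2.1
    obtain rfl := cN_inj' hl.2.2
    exact ⟨p.1, hraw p hp, h⟩
  · intro α hα hcat J hJ h hh hJn hJp hhn hH m
    obtain ⟨H, hH, hJH, hhH, hlab⟩ := hH
    obtain ⟨p, hp, y, y', α', J', h', hl, h1⟩ := meet hs (3, m)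
      [Sum.inl (cN S α), Sum.inl (cN S J), Sum.inl (cN S h)] (lc hα (lc hJ (l1 hh))) (by
      intro p hp
      obtain ⟨q, h1, h2, h3⟩ := Sys.match_dense hH hcat hJn hJp hhn hJH hhH hlab hp m
      exact ⟨q, h1, h2, Sum.inr ⟨q, h1⟩, _, α, J, h, rfl, h3⟩)
    simp only [List.cons.injEq, and_true] at hl
    obtain rfl := cN_inj' hl.2.1
    obtain rfl := cN_inj' hl.2.2.1
    obtain rfl := cN_inj' hl.2.2.2
    exact ⟨p.1, hraw p hp, h1⟩

end Pool.Agent.Helper60.MA
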